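import Pool.Agent.Results.MP_7564fc_nt.FewLongCycles
import Pool.Agent.H107.MetricFam
import Pool.Agent.Y854.GM.Win

/-!
# Rational periodic points of `x² + c`: all parameters in shrinking residue classes and in windows of heights

Let `l` be a prime number and `s > 0`. For all pairs `(α, β)` of `l`-adic integers outside of a set of Hausdorff dimension at most
`1 / s` (the plane `ℤ_l × ℤ_l` has dimension two) and all large `T`: ALL rational numbers `c = n / d²`, `gcd (n, d) = 1`, with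
`d ≤ T`, `|n| ≤ T²` and `|n - α|_l, |d - β|_l ≤ T^{-s}`, that is, with `n` and `d` in the residue classes of `α` and `β` modulo
the least power `l^f ≥ T^s`, have no rational periodic point of exact period three or more. For `1/2 < s < 1` this holds for
almost all `(α, β)` and about `T^{3 - 2s}` parameters.

Let `1 ≤ u_0, u_1, …` be reals with `∑ u_m^{-t} < ∞` for all `t > τ` and `θ < 1`. For all `a > 0` outside of a set of Hausdorff
dimension at most `(1/2 + τ) / (1 - θ)` and all large `m` the same holds for ALL rational `c` of height `H(c)` with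
`|H(c) - a u_m| ≤ u_m^θ`.
-/

set_option autoImplicit false

open Filter Topology MeasureTheory

namespace Pool.Agent.Results.MP_7564fc_nt.LongCyclesInResidueClasses

open FewLongCycles (f Long)

/-- the height of `c` -/
noncomputable def H (c : ℚ) : ℝ := max |(c.num : ℝ)| (c.den : ℝ)

theorem not_long {c : ℚ} (h : ¬ Long c) : ∀ x ∈ Function.periodicPts (f c), Function.minimalPeriod (f c) x ≤ 2 := by
  intro x hx
  by_contra hcon
  exact h ⟨x, hx, by omega⟩

theorem count (ε : ℝ) (hε : 0 < ε) : ∃ C : ℝ, ∀ X : ℝ, 1 ≤ X → {c : ℚ | Long c ∧ (c.den : ℝ) ≤ X}.Finite ∧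
    ({c : ℚ | Long c ∧ (c.den : ℝ) ≤ X}.ncard : ℝ) ≤ C * X ^ (1 / 2 + ε) := by
  obtain ⟨C, hC⟩ := FewLongCycles.result.2.2.1 ε hε
  refine ⟨|C|, fun X hX => ?_⟩
  obtain ⟨h1, h2⟩ := hC ⌊X⌋₊
  have e : {c : ℚ | Long c ∧ (c.den : ℝ) ≤ X} = {c : ℚ | c.den ≤ ⌊X⌋₊ ∧ Long c} := by
    ext c
    constructor
    · rintro ⟨a, b⟩
      exact ⟨Nat.le_floor b, a⟩
    · rintro ⟨a, b⟩
      exact ⟨b, (Nat.le_floor_iff (by linarith)).1 a⟩
  rw [e]
  refine ⟨h1, h2.trans ?_⟩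
  have h3 : ((⌊X⌋₊ : ℕ) : ℝ) ^ (1 / 2 + ε) ≤ X ^ (1 / 2 + ε) :=
    Real.rpow_le_rpow (Nat.cast_nonneg _) (Nat.floor_le (by linarith)) (by linarith)
  calc C * ((⌊X⌋₊ : ℕ) : ℝ) ^ (1 / 2 + ε) ≤ |C| * ((⌊X⌋₊ : ℕ) : ℝ) ^ (1 / 2 + ε) :=
        mul_le_mul_of_nonneg_right (le_abs_self C) (by positivity)
    _ ≤ |C| * X ^ (1 / 2 + ε) := mul_le_mul_of_nonneg_left h3 (abs_nonneg C)

/-- **Theorem.** (1) Let `l` be a prime and `s > 0`. For all `(α, β) ∈ ℤ_l × ℤ_l` outside of a set of dimension at most `1 / s`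
and all large `T`, no `c = n / d²` in lowest terms with `d ≤ T`, `|n| ≤ T²` and `|n - α|_l, |d - β|_l ≤ T^{-s}` has a rational
periodic point of exact period three or more. (2) Let `1 ≤ u_m`, `∑_m u_m^{-t} < ∞` for all `t > τ`, `θ < 1`. For all `a > 0`
outside of a set of dimension at most `(1/2 + τ) / (1 - θ)` and all large `m`, no `c` with `|H(c) - a u_m| ≤ u_m^θ` has such a
point. -/
theorem result :
    (∀ (l : ℕ) [Fact l.Prime] (s : ℝ), 0 < s → ∃ E : Set (ℤ_[l] × ℤ_[l]), dimH E ≤ ENNReal.ofReal (1 / s) ∧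
      ∀ α β : ℤ_[l], (α, β) ∉ E → ∃ T₀ : ℝ, ∀ T : ℝ, T₀ ≤ T → ∀ (c : ℚ) (d : ℕ), c.den = d ^ 2 → (d : ℝ) ≤ T →
        |(c.num : ℝ)| ≤ T ^ 2 → ‖(c.num : ℤ_[l]) - α‖ ≤ T ^ (-s) → ‖(d : ℤ_[l]) - β‖ ≤ T ^ (-s) →
        ∀ x ∈ Function.periodicPts (f c), Function.minimalPeriod (f c) x ≤ 2) ∧
    (∀ (u : ℕ → ℝ) (τ θ : ℝ), (∀ m, 1 ≤ u m) → 0 ≤ τ → (∀ t : ℝ, τ < t → Summable fun m : ℕ => u m ^ (-t)) → θ < 1 →
      ∃ Z : Set ℝ, dimH Z ≤ ENNReal.ofReal ((1 / 2 + τ) / (1 - θ)) ∧ ∀ a : ℝ, 0 < a → a ∉ Z →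
        ∃ m₀ : ℕ, ∀ m : ℕ, m₀ ≤ m → ∀ c : ℚ, |H c - a * u m| ≤ u m ^ θ →
          ∀ x ∈ Function.periodicPts (f c), Function.minimalPeriod (f c) x ≤ 2) := by
  constructor
  · intro l _ s hs
    obtain ⟨φ, hφ⟩ : ∃ φ : ℚ → ℤ_[l] × ℤ_[l], ∀ c, φ c = ((c.num : ℤ_[l]), ((Nat.sqrt c.den : ℕ) : ℤ_[l])) :=
      ⟨_, fun _ => rfl⟩
    obtain ⟨h, hh⟩ : ∃ h : ℚ → ℝ, ∀ c, h c = max 1 (max (√|(c.num : ℝ)|) (√(c.den : ℝ))) := ⟨_, fun _ => rfl⟩
    obtain ⟨E, hE1, hE2⟩ := Pool.Agent.H107.ME.dim_family φ h (fun c => by rw [hh]; exact le_max_left _ _)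
      (s := 1) (by norm_num) hs (J := Unit) (fun _ => {c | Long c}) (fun _ ε hε => by
        obtain ⟨C, hC⟩ := count (ε / 2) (by linarith)
        refine ⟨|C|, fun X hX => ?_⟩
        have hX0 : 0 < X := by linarith
        obtain ⟨g1, g2⟩ := hC (X ^ 2) (one_le_pow₀ hX)
        have hsub : {c | c ∈ {c | Long c} ∧ h c ≤ X} ⊆ {c : ℚ | Long c ∧ (c.den : ℝ) ≤ X ^ 2} := by
          rintro c ⟨a, b⟩
          refine ⟨a, ?_⟩
          rw [hh] at b
          have b1 : √(c.den : ℝ) ≤ X := ((le_max_right _ _).trans (le_max_right _ _)).trans b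
          exact (Real.sqrt_le_left hX0.le).1 b1
        refine ⟨g1.subset hsub, ?_⟩
        have h3 : ({c | c ∈ {c | Long c} ∧ h c ≤ X}.ncard : ℝ) ≤
            ({c : ℚ | Long c ∧ (c.den : ℝ) ≤ X ^ 2}.ncard : ℝ) := by
          exact_mod_cast Set.ncard_le_ncard hsub g1
        have h4 : (X ^ 2) ^ (1 / 2 + ε / 2) = X ^ (1 + ε) := by
          rw [← Real.rpow_natCast X 2, ← Real.rpow_mul hX0.le]
          congr 1
          push_cast
          ring
        rw [h4] at g2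
        exact (h3.trans g2).trans (mul_le_mul_of_nonneg_right (le_abs_self C) (by positivity)))
    have hcount : (Set.range φ).Countable := Set.countable_range φ
    refine ⟨E ∪ Set.range φ, ?_, fun α β hα => ?_⟩
    · rw [dimH_union, hcount.dimH_zero]
      exact max_le hE1 bot_le
    rw [Set.mem_union, not_or] at hα
    have hfin := hE2 (α, β) hα.1 ()
    have hne : ∀ t ∈ {t | t ∈ {c | Long c} ∧ dist (φ t) (α, β) ≤ (h t) ^ (-s)},
        ∀ᶠ T : ℝ in atTop, T ^ (-s) < dist (φ t) (α, β) := by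
      intro t _
      have h1 : 0 < dist (φ t) (α, β) := dist_pos.2 fun h2 => hα.2 ⟨t, h2⟩
      exact (tendsto_rpow_neg_atTop hs).eventually (gt_mem_nhds h1)
    obtain ⟨T₀, hT₀⟩ := eventually_atTop.1 ((Filter.eventually_all_finite hfin).2 hne)
    refine ⟨max T₀ 1, fun T hT c d hcd hd hn hα1 hβ1 => not_long fun hlong => ?_⟩
    have hT1 : 1 ≤ T := (le_max_right _ _).trans hT
    have hT0 : 0 < T := by linarith
    have hsq : Nat.sqrt c.den = d := by
      rw [hcd]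
      exact Nat.sqrt_eq' d
    have hdist : dist (φ c) (α, β) ≤ T ^ (-s) := by
      rw [hφ, Prod.dist_eq, hsq]
      refine max_le ?_ ?_
      · rw [dist_eq_norm]
        exact hα1
      · rw [dist_eq_norm]
        exact hβ1
    have hle : h c ≤ T := by
      rw [hh]
      refine max_le hT1 (max_le ?_ ?_)
      · rw [Real.sqrt_le_left hT0.le]
        exact hn
      · rw [Real.sqrt_le_left hT0.le, hcd]
        push_cast
        exact pow_le_pow_left₀ (Nat.cast_nonneg d) hd 2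
    have hh1 : 1 ≤ h c := by
      rw [hh]
      exact le_max_left _ _
    have hmem : c ∈ {t | t ∈ {c | Long c} ∧ dist (φ t) (α, β) ≤ (h t) ^ (-s)} :=
      ⟨hlong, hdist.trans (Real.rpow_le_rpow_of_nonpos (by linarith) hle (by linarith))⟩
    have h3 := hT₀ T ((le_max_left _ _).trans hT) c hmem
    linarith
  · intro u τ θ hu hτ hgrow hθ
    obtain ⟨Z, h1, h2⟩ := Pool.Agent.Y854.GM.windows {c | Long c} H hu hτ hgrow (s := 1 / 2) (by norm_num) hθ
      (fun ε hε => by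
        obtain ⟨C, hC⟩ := count ε hε
        refine ⟨C, fun X hX => ?_⟩
        obtain ⟨g1, g2⟩ := hC X hX
        have hsub : {t | t ∈ {c | Long c} ∧ H t ≤ X} ⊆ {c : ℚ | Long c ∧ (c.den : ℝ) ≤ X} := by
          rintro c ⟨a, b⟩
          exact ⟨a, (le_max_right _ _).trans b⟩
        refine ⟨g1.subset hsub, le_trans ?_ g2⟩
        exact_mod_cast Set.ncard_le_ncard hsub g1)
    refine ⟨Z, h1, fun a ha haZ => ?_⟩
    obtain ⟨m₀, hm₀⟩ := h2 a ha haZ
    refine ⟨m₀, fun m hm c hc => not_long fun hlong => ?_⟩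
    exact absurd hc (not_le.2 (hm₀ m hm c hlong))

end Pool.Agent.Results.MP_7564fc_nt.LongCyclesInResidueClasses
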